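import Pool.Agent.UMG.StmtsB

/-!
# Squad UMG, block B, row GWS: `gsum` of a list with `m` entries `k` in front
-/

set_option autoImplicit false

namespace Pool.Agent.UMG.B.H19

open Finset Pool.Agent.UMG Pool.Agent.UMG.B

theorem gws : GwsStmt := by
  intro Ψ m
  induction m using Nat.strong_induction_on generalizing Ψ with
  | _ m ih =>
    intro k t hk
    rcases m with _ | m
    · rw [wsum]
      rfl
    · have e0 : List.replicate (m + 1) k ++ t = k :: (List.replicate m k ++ t) := rfl
      have hcount : (List.replicate m k ++ t).count k = m := by
        rw [List.count_append, List.count_replicate_self, List.count_eq_zero.2 hk, Nat.add_zero]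
      rw [e0, gsum, wsum, hcount]
      apply Finset.sum_congr rfl
      intro i hi
      have hi' : i ≤ m := by
        rw [Finset.mem_range] at hi
        omega
      have hdrop : (List.replicate m k ++ t).drop i = List.replicate (m - i) k ++ t := by
        rw [List.drop_append_of_le_length (by rw [List.length_replicate]; exact hi'),
          List.drop_replicate]
      rw [hdrop]
      congr 1
      apply congrArg (csum k)
      funext p
      rw [ih (m - i) (by omega) (fun c => Ψ ((i + 1, p) :: c)) k t hk]
      rfl

end Pool.Agent.UMG.B.H19
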