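import Pool.Agent.UMG.StmtsB

/-!
# Squad UMG, block B, row TRA: two sets with fixed point free involutions and labels
-/

set_option autoImplicit false

namespace Pool.Agent.UMG.B.H19

open Finset Pool.Agent.UMG Pool.Agent.UMG.B

section

variable {L H H' : Type} [DecidableEq L] [DecidableEq H] [DecidableEq H'] [Nonempty H']
  {sw : L → L} {m : H → H} {m' : H' → H'} {f : H → L} {f' : H' → L}

theorem tra_aux (hm : ∀ h, m (m h) = h) (hn : ∀ h, m h ≠ h) (hm' : ∀ h, m' (m' h) = h)
    (hn' : ∀ h, m' h ≠ h) (hf : ∀ h, f (m h) = sw (f h)) (hf' : ∀ h, f' (m' h) = sw (f' h)) :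
    ∀ (n : ℕ) (S : Finset H) (S' : Finset H'), S.card = n → (∀ h ∈ S, m h ∈ S) →
      (∀ h ∈ S', m' h ∈ S') →
      (∀ x, (S.filter (fun h => f h = x)).card = (S'.filter (fun h => f' h = x)).card) →
      ∃ e : H → H', (∀ h ∈ S, e h ∈ S') ∧ (∀ h ∈ S, ∀ k ∈ S, e h = e k → h = k) ∧
        (∀ k ∈ S', ∃ h ∈ S, e h = k) ∧ (∀ h ∈ S, f' (e h) = f h) ∧
        ∀ h ∈ S, e (m h) = m' (e h) := by
  intro n
  induction n using Nat.strong_induction_on with
  | _ n ih =>
    intro S S' hcard hS hS' hfib
    rcases S.eq_empty_or_nonempty with rfl | ⟨a, ha⟩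
    · refine ⟨fun _ => Classical.arbitrary H', by simp, by simp, ?_, by simp, by simp⟩
      intro k hk
      exfalso
      have h1 := hfib (f' k)
      rw [Finset.filter_empty, Finset.card_empty] at h1
      have h2 : k ∈ S'.filter (fun h => f' h = f' k) := Finset.mem_filter.2 ⟨hk, rfl⟩
      rw [Finset.card_eq_zero.1 h1.symm] at h2
      exact absurd h2 (Finset.notMem_empty k)
    · -- a partner of `a`
      obtain ⟨a', ha'⟩ : ∃ a', a' ∈ S'.filter (fun h => f' h = f a) := by
        apply Finset.card_pos.1
        rw [← hfib (f a)]
        exact Finset.card_pos.2 ⟨a, Finset.mem_filter.2 ⟨ha, rfl⟩⟩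
      rw [Finset.mem_filter] at ha'
      obtain ⟨ha'S, hfa⟩ := ha'
      have hmem : ∀ h, h ∈ (S.erase a).erase (m a) ↔ h ≠ m a ∧ h ≠ a ∧ h ∈ S := by
        intro h
        rw [Finset.mem_erase, Finset.mem_erase]
      have hmem' : ∀ h, h ∈ (S'.erase a').erase (m' a') ↔ h ≠ m' a' ∧ h ≠ a' ∧ h ∈ S' := by
        intro h
        rw [Finset.mem_erase, Finset.mem_erase]
      have hinj : ∀ h k, m h = m k → h = k := by
        intro h k hhk
        rw [← hm h, hhk, hm]
      have hinj' : ∀ h k, m' h = m' k → h = k := by
        intro h k hhk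
        rw [← hm' h, hhk, hm']
      have hcl : ∀ h ∈ (S.erase a).erase (m a), m h ∈ (S.erase a).erase (m a) := by
        intro h hh
        rw [hmem] at hh ⊢
        refine ⟨fun e => hh.2.1 (hinj h a e), fun e => hh.1 ?_, hS h hh.2.2⟩
        rw [← e, hm]
      have hcl' : ∀ h ∈ (S'.erase a').erase (m' a'), m' h ∈ (S'.erase a').erase (m' a') := by
        intro h hh
        rw [hmem'] at hh ⊢
        refine ⟨fun e => hh.2.1 (hinj' h a' e), fun e => hh.1 ?_, hS' h hh.2.2⟩
        rw [← e, hm']
      have hfib1 : ∀ x, (((S.erase a).erase (m a)).filter (fun h => f h = x)).card =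
          (((S'.erase a').erase (m' a')).filter (fun h => f' h = x)).card := by
        intro x
        have e1 : ((S.erase a).erase (m a)).filter (fun h => f h = x) =
            ((S.filter (fun h => f h = x)).erase a).erase (m a) := by
          ext h
          simp only [Finset.mem_filter, Finset.mem_erase]
          tauto
        have e2 : ((S'.erase a').erase (m' a')).filter (fun h => f' h = x) =
            ((S'.filter (fun h => f' h = x)).erase a').erase (m' a') := by
          ext h
          simp only [Finset.mem_filter, Finset.mem_erase]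
          tauto
        have c1 : a ∈ S.filter (fun h => f h = x) ↔ f a = x := by
          rw [Finset.mem_filter]
          exact ⟨fun h => h.2, fun h => ⟨ha, h⟩⟩
        have c1' : a' ∈ S'.filter (fun h => f' h = x) ↔ f a = x := by
          rw [Finset.mem_filter, hfa]
          exact ⟨fun h => h.2, fun h => ⟨ha'S, h⟩⟩
        have c2 : m a ∈ (S.filter (fun h => f h = x)).erase a ↔ sw (f a) = x := by
          rw [Finset.mem_erase, Finset.mem_filter, hf]
          exact ⟨fun h => h.2.2, fun h => ⟨hn a, hS a ha, h⟩⟩
        have c2' : m' a' ∈ (S'.filter (fun h => f' h = x)).erase a' ↔ sw (f a) = x := by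
          rw [Finset.mem_erase, Finset.mem_filter, hf', hfa]
          exact ⟨fun h => h.2.2, fun h => ⟨hn' a', hS' a' ha'S, h⟩⟩
        rw [e1, e2]
        simp only [Finset.card_erase_eq_ite, c1, c1', c2, c2', hfib x]
      have hlt : ((S.erase a).erase (m a)).card < n := by
        rw [← hcard]
        apply lt_of_le_of_lt (Finset.card_le_card (Finset.erase_subset _ _))
        exact Finset.card_erase_lt_of_mem ha
      obtain ⟨e, h1, h2, h3, h4, h5⟩ := ih _ hlt _ ((S'.erase a').erase (m' a')) rfl hcl hcl'
        hfib1
      have hma : m a ≠ a := hn a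
      have hma' : m' a' ≠ a' := hn' a'
      let e' : H → H' := fun h => if h = a then a' else if h = m a then m' a' else e h
      have ea : e' a = a' := if_pos rfl
      have em : e' (m a) = m' a' := by
        show (if m a = a then a' else if m a = m a then m' a' else e (m a)) = m' a'
        rw [if_neg hma, if_pos rfl]
      have eo : ∀ h, h ∈ (S.erase a).erase (m a) → e' h = e h := by
        intro h hh
        rw [hmem] at hh
        show (if h = a then a' else if h = m a then m' a' else e h) = e h
        rw [if_neg hh.2.1, if_neg hh.1]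
      have cases : ∀ h ∈ S, h = a ∨ h = m a ∨ h ∈ (S.erase a).erase (m a) := by
        intro h hh
        rw [hmem]
        tauto
      have cases' : ∀ h ∈ S', h = a' ∨ h = m' a' ∨ h ∈ (S'.erase a').erase (m' a') := by
        intro h hh
        rw [hmem']
        tauto
      have nea : ∀ h ∈ (S.erase a).erase (m a), e h ≠ a' := fun h hh =>
        ((hmem' _).1 (h1 h hh)).2.1
      have nem : ∀ h ∈ (S.erase a).erase (m a), e h ≠ m' a' := fun h hh =>
        ((hmem' _).1 (h1 h hh)).1
      refine ⟨e', ?_, ?_, ?_, ?_, ?_⟩
      · intro h hh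
        rcases cases h hh with rfl | rfl | hh
        · rw [ea]; exact ha'S
        · rw [em]; exact hS' a' ha'S
        · rw [eo h hh]
          exact ((hmem' _).1 (h1 h hh)).2.2
      · intro h hh k hk hek
        rcases cases h hh with rfl | rfl | hh
        · rcases cases k hk with rfl | rfl | hk
          · rfl
          · rw [ea, em] at hek
            exact absurd hek.symm hma'
          · rw [ea, eo k hk] at hek
            exact absurd hek.symm (nea k hk)
        · rcases cases k hk with rfl | rfl | hk
          · rw [ea, em] at hek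
            exact absurd hek hma'
          · rfl
          · rw [em, eo k hk] at hek
            exact absurd hek.symm (nem k hk)
        · rcases cases k hk with rfl | rfl | hk
          · rw [ea, eo h hh] at hek
            exact absurd hek (nea h hh)
          · rw [em, eo h hh] at hek
            exact absurd hek (nem h hh)
          · rw [eo h hh, eo k hk] at hek
            exact h2 h hh k hk hek
      · intro k hk
        rcases cases' k hk with rfl | rfl | hk
        · exact ⟨a, ha, ea⟩
        · exact ⟨m a, hS a ha, em⟩
        · obtain ⟨h, hh, hek⟩ := h3 k hk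
          exact ⟨h, ((hmem h).1 hh).2.2, by rw [eo h hh, hek]⟩
      · intro h hh
        rcases cases h hh with rfl | rfl | hh
        · rw [ea, hfa]
        · rw [em, hf', hfa, hf]
        · rw [eo h hh]
          exact h4 h hh
      · intro h hh
        rcases cases h hh with rfl | rfl | hh
        · rw [ea, em]
        · rw [hm, ea, em, hm']
        · rw [eo h hh, eo (m h) (hcl h hh)]
          exact h5 h hh

end

theorem tra : TraStmt := by
  classical
  intro L H H' _ _ sw m m' f f' hm hn hm' hn' hf hf' hfib
  have := Fintype.ofFinite H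
  have := Fintype.ofFinite H'
  rcases isEmpty_or_nonempty H' with hE | hN
  · have hE2 : IsEmpty H := by
      rw [isEmpty_iff]
      intro a
      have h1 := hfib (f a)
      have h2 : Nat.card {h : H' // f' h = f a} = 0 := by
        have : IsEmpty {h : H' // f' h = f a} := ⟨fun h => hE.false h.1⟩
        exact Nat.card_of_isEmpty
      rw [h2, Nat.card_eq_zero] at h1
      rcases h1 with h1 | h1
      · exact h1.false ⟨a, rfl⟩
      · exact h1.not_finite inferInstance
    exact ⟨Equiv.equivOfIsEmpty H H', fun h => (hE2.false h).elim, fun h => (hE2.false h).elim⟩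
  · have hfib' : ∀ x, ((Finset.univ : Finset H).filter (fun h => f h = x)).card =
        ((Finset.univ : Finset H').filter (fun h => f' h = x)).card := by
      intro x
      have h1 := hfib x
      rw [Nat.card_eq_fintype_card, Nat.card_eq_fintype_card, Fintype.card_subtype,
        Fintype.card_subtype] at h1
      exact h1
    obtain ⟨e, _, h2, h3, h4, h5⟩ := tra_aux hm hn hm' hn' hf hf' _ Finset.univ Finset.univ rfl
      (fun h _ => Finset.mem_univ _) (fun h _ => Finset.mem_univ _) hfib'
    have hb : Function.Bijective e := by
      refine ⟨fun h k hhk => h2 h (Finset.mem_univ _) k (Finset.mem_univ _) hhk, fun k => ?_⟩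
      obtain ⟨h, _, hh⟩ := h3 k (Finset.mem_univ _)
      exact ⟨h, hh⟩
    exact ⟨Equiv.ofBijective e hb, fun h => h4 h (Finset.mem_univ _),
      fun h => h5 h (Finset.mem_univ _)⟩

end Pool.Agent.UMG.B.H19
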